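import Mathlib

set_option autoImplicit false
set_option linter.unusedSectionVars false
open Set Metric Filter Topology
open scoped Pointwise

namespace Pool.Agent.Y821.CB

variable {E : Type*} [NormedAddCommGroup E] [InnerProductSpace ℝ E] [FiniteDimensional ℝ E]

/-- The outer parallel body of `Q` at distance `r`. -/
def Par (Q : Set E) (r : ℝ) : Set E := Q + closedBall 0 r

lemma mem_Par {Q : Set E} {r : ℝ} {x : E} :
    x ∈ Par Q r ↔ ∃ q ∈ Q, ∃ b : E, ‖b‖ ≤ r ∧ q + b = x := by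
  unfold Par
  rw [Set.mem_add]
  constructor
  · rintro ⟨q, hq, b, hb, h⟩
    exact ⟨q, hq, b, by simpa using hb, h⟩
  · rintro ⟨q, hq, b, hb, h⟩
    exact ⟨q, hq, b, by simpa using hb, h⟩

lemma inner_le_Par {Q : Set E} {r s : ℝ} {u x : E} (hs : ∀ q ∈ Q, inner ℝ u q ≤ s)
    (hx : x ∈ Par Q r) : inner ℝ u x ≤ s + r * ‖u‖ := by
  obtain ⟨q, hq, b, hb, rfl⟩ := mem_Par.1 hx
  rw [inner_add_right]
  have h1 := hs q hq
  have h2 : inner ℝ u b ≤ ‖u‖ * ‖b‖ := real_inner_le_norm u b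
  have h3 : ‖u‖ * ‖b‖ ≤ r * ‖u‖ := by
    rw [mul_comm]; exact mul_le_mul_of_nonneg_right hb (norm_nonneg _)
  linarith

lemma inner_ge_Par {Q : Set E} {r s : ℝ} {u x : E} (hs : ∀ q ∈ Q, s ≤ inner ℝ u q)
    (hx : x ∈ Par Q r) : s - r * ‖u‖ ≤ inner ℝ u x := by
  have h := inner_le_Par (Q := Q) (r := r) (s := -s) (u := -u) (x := x)
    (fun q hq => by rw [inner_neg_left]; linarith [hs q hq]) hx
  rw [inner_neg_left, norm_neg] at h
  linarith

lemma core_sub_Par {Q : Set E} {r : ℝ} (hr : 0 ≤ r) : Q ⊆ Par Q r := fun q hq =>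
  mem_Par.2 ⟨q, hq, 0, by simpa using hr, by simp⟩

lemma Par_compact {Q : Set E} {r : ℝ} (hQ : IsCompact Q) : IsCompact (Par Q r) :=
  hQ.add (isCompact_closedBall 0 r)

lemma Par_convex {Q : Set E} {r : ℝ} (hQ : Convex ℝ Q) : Convex ℝ (Par Q r) :=
  hQ.add (convex_closedBall 0 r)

lemma Par_interior {Q : Set E} {r : ℝ} {q x : E} (hq : q ∈ Q) (hx : ‖x - q‖ < r) :
    x ∈ interior (Par Q r) := by
  rw [mem_interior]
  refine ⟨ball q r, ?_, isOpen_ball, by simpa [dist_eq_norm] using hx⟩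
  intro y hy
  refine mem_Par.2 ⟨q, hq, y - q, ?_, by abel⟩
  have : dist y q < r := hy
  rw [dist_eq_norm] at this
  exact this.le

/-- Every boundary point of an outer parallel body has an outer unit normal, which determines the
position of the point. -/
lemma exists_normal {Q : Set E} {r : ℝ} (hr : 0 < r) (hQc : IsCompact Q) (hQ : Convex ℝ Q)
    {x : E} (hx : x ∈ frontier (Par Q r)) :
    ∃ (ν : E) (q : E), q ∈ Q ∧ ‖ν‖ = 1 ∧ x = q + r • ν ∧
      (∀ y ∈ Par Q r, inner ℝ ν y ≤ inner ℝ ν x) := by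
  have hxC : x ∈ Par Q r := (Par_compact hQc).isClosed.frontier_subset hx
  obtain ⟨q1, hq1, b, hb, hbx⟩ := mem_Par.1 hxC
  have hne : Q.Nonempty := ⟨q1, hq1⟩
  obtain ⟨q, hq, hqmin⟩ := exists_norm_eq_iInf_of_complete_convex hne hQc.isComplete hQ x
  have hobt := (norm_eq_iInf_iff_real_inner_le_zero hQ hq).1 hqmin
  have hle : ‖x - q‖ ≤ r := by
    rw [hqmin]
    have : (⨅ w : Q, ‖x - w‖) ≤ ‖x - (⟨q1, hq1⟩ : Q)‖ :=
      ciInf_le ⟨0, by rintro _ ⟨w, rfl⟩; positivity⟩ _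
    refine this.trans ?_
    have : x - q1 = b := by rw [← hbx]; abel
    simpa [this] using hb
  have heq : ‖x - q‖ = r := by
    refine le_antisymm hle (not_lt.1 fun h => ?_)
    exact hx.2 (Par_interior hq h)
  refine ⟨r⁻¹ • (x - q), q, hq, ?_, ?_, ?_⟩
  · rw [norm_smul, heq, norm_inv, Real.norm_of_nonneg hr.le, inv_mul_cancel₀ hr.ne']
  · rw [smul_smul, mul_inv_cancel₀ hr.ne', one_smul]; abel
  · intro y hy
    have h1 : ∀ p ∈ Q, inner ℝ (r⁻¹ • (x - q)) p ≤ inner ℝ (r⁻¹ • (x - q)) q := by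
      intro p hp
      have h := hobt p hp
      rw [inner_sub_right] at h
      rw [real_inner_smul_left, real_inner_smul_left]
      have : 0 < r⁻¹ := inv_pos.2 hr
      nlinarith
    have h2 := inner_le_Par (u := r⁻¹ • (x - q)) h1 hy
    have h3 : ‖r⁻¹ • (x - q)‖ = 1 := by
      rw [norm_smul, heq, norm_inv, Real.norm_of_nonneg hr.le, inv_mul_cancel₀ hr.ne']
    rw [h3, mul_one] at h2
    have h5 : inner ℝ (r⁻¹ • (x - q)) (x - q) = r := by
      rw [real_inner_smul_left, real_inner_self_eq_norm_sq, heq]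
      field_simp
    have h4 : inner ℝ (r⁻¹ • (x - q)) x = inner ℝ (r⁻¹ • (x - q)) q + r := by
      rw [inner_sub_right] at h5
      linarith
    rw [h4]; exact h2

/-- The point of the hull at which a nonzero functional is maximal lies on the boundary. -/
lemma mem_frontier_of_max {H : Set E} {x ν : E} (hν : ν ≠ 0) (hx : x ∈ H)
    (hmax : ∀ y ∈ H, inner ℝ ν y ≤ inner ℝ ν x) : x ∈ frontier H := by
  refine ⟨subset_closure hx, fun hi => ?_⟩
  rw [mem_interior_iff_mem_nhds, Metric.mem_nhds_iff] at hi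
  obtain ⟨ε, hε, hb⟩ := hi
  have hn : 0 < ‖ν‖ := norm_pos_iff.2 hν
  have hy : x + (ε / (2 * ‖ν‖)) • ν ∈ H := by
    apply hb
    rw [mem_ball, dist_eq_norm, add_sub_cancel_left, norm_smul, Real.norm_of_nonneg (by positivity)]
    have : ε / (2 * ‖ν‖) * ‖ν‖ = ε / 2 := by field_simp
    rw [this]; linarith
  have h := hmax _ hy
  rw [inner_add_right, real_inner_smul_right, real_inner_self_eq_norm_sq] at h
  have : 0 < ε / (2 * ‖ν‖) * ‖ν‖ ^ 2 := by positivity
  linarith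

/-- If an outer parallel body has a point strictly beyond the other bodies in some direction, a
piece of its boundary is on the boundary of the convex hull of all of them. -/
lemma piece {Q W : Set E} {r t : ℝ} {u : E} (hr : 0 < r) (hQc : IsCompact Q) (hQ : Convex ℝ Q)
    (hW : Bornology.IsBounded W) (hu : u ≠ 0) (ht : ∀ x ∈ W, inner ℝ u x ≤ t)
    (hx : ∃ x ∈ Par Q r, t < inner ℝ u x) :
    ∃ V : Set E, IsOpen V ∧ (V ∩ frontier (Par Q r)).Nonempty ∧
      V ∩ frontier (Par Q r) ⊆ frontier (convexHull ℝ (Par Q r ∪ W)) := by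
  classical
  -- normalise
  set v : E := ‖u‖⁻¹ • u with hv
  have hun : 0 < ‖u‖ := norm_pos_iff.2 hu
  have hv1 : ‖v‖ = 1 := by
    rw [hv, norm_smul, norm_inv, norm_norm, inv_mul_cancel₀ hun.ne']
  set s : ℝ := ‖u‖⁻¹ * t with hs
  have htv : ∀ x ∈ W, inner ℝ v x ≤ s := by
    intro x hx
    rw [hv, real_inner_smul_left, hs]
    exact mul_le_mul_of_nonneg_left (ht x hx) (by positivity)
  obtain ⟨z, hz, hzt⟩ := hx
  have hzv : s < inner ℝ v z := by
    rw [hv, real_inner_smul_left, hs]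
    exact mul_lt_mul_of_pos_left hzt (by positivity)
  have hCc := Par_compact (r := r) hQc
  obtain ⟨x0, hx0, hmax0⟩ := hCc.exists_isMaxOn ⟨z, hz⟩
    (f := fun y => inner ℝ v y) (by fun_prop)
  have hmax : ∀ y ∈ Par Q r, inner ℝ v y ≤ inner ℝ v x0 := fun y hy => hmax0 hy
  have hx0s : s < inner ℝ v x0 := lt_of_lt_of_le hzv (hmax z hz)
  have hv0 : v ≠ 0 := by rw [← norm_pos_iff, hv1]; norm_num
  have hx0f : x0 ∈ frontier (Par Q r) := mem_frontier_of_max hv0 hx0 hmax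
  -- bound
  obtain ⟨R, hR⟩ := (hCc.isBounded.union hW).exists_norm_le
  have hRx0 : ‖x0‖ ≤ R := hR x0 (Or.inl hx0)
  have hR0 : 0 ≤ R := (norm_nonneg _).trans hRx0
  set g : ℝ := inner ℝ v x0 - s with hg
  have hg0 : 0 < g := by rw [hg]; linarith
  -- choose τ
  obtain ⟨τ, hτ0, hτ1, hτ2⟩ : ∃ τ : ℝ, 0 < τ ∧ τ < g / 2 ∧ 2 * (Real.sqrt (2 * τ / r) * R) < g / 2 := by
    have hc : Tendsto (fun τ : ℝ => 2 * (Real.sqrt (2 * τ / r) * R)) (𝓝[>] 0) (𝓝 (2 * (Real.sqrt (2 * 0 / r) * R))) := by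
      refine Tendsto.mono_left ?_ nhdsWithin_le_nhds
      have : Continuous (fun τ : ℝ => 2 * (Real.sqrt (2 * τ / r) * R)) := by fun_prop
      exact this.tendsto 0
    have h0 : 2 * (Real.sqrt (2 * 0 / r) * R) < g / 2 := by simp; linarith
    have e1 := hc.eventually_lt_const h0
    have e2 : ∀ᶠ τ : ℝ in 𝓝[>] 0, τ < g / 2 :=
      nhdsWithin_le_nhds (Iio_mem_nhds (by linarith))
    have e3 : ∀ᶠ τ : ℝ in 𝓝[>] 0, 0 < τ := self_mem_nhdsWithin
    obtain ⟨τ, h⟩ := (e1.and (e2.and e3)).exists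
    exact ⟨τ, h.2.2, h.2.1, h.1⟩
  refine ⟨ball x0 τ, isOpen_ball, ⟨x0, mem_ball_self hτ0, hx0f⟩, ?_⟩
  rintro x ⟨hxb, hxf⟩
  have hxC : x ∈ Par Q r := hCc.isClosed.frontier_subset hxf
  obtain ⟨ν, q, hq, hν1, hxq, hνmax⟩ := exists_normal hr hQc hQ hxf
  have hdist : ‖x - x0‖ < τ := by rw [← dist_eq_norm]; exact hxb
  have hRx : ‖x‖ ≤ R := hR x (Or.inl hxC)
  -- the normal is close to v
  have h1 : inner ℝ v x0 - τ ≤ inner ℝ v x := by
    have h := real_inner_le_norm v (x0 - x)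
    rw [inner_sub_right, hv1, one_mul, norm_sub_rev] at h
    linarith
  have h2 : inner ℝ v (q + r • v) ≤ inner ℝ v x0 :=
    hmax _ (mem_Par.2 ⟨q, hq, r • v, by rw [norm_smul, hv1, Real.norm_of_nonneg hr.le, mul_one], rfl⟩)
  have h3 : inner ℝ v x = inner ℝ v q + r * inner ℝ v ν := by
    rw [hxq, inner_add_right, real_inner_smul_right]
  have h4 : inner ℝ v q + r ≤ inner ℝ v x0 := by
    rw [inner_add_right, real_inner_smul_right, real_inner_self_eq_norm_sq, hv1] at h2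
    linarith
  have h5 : 1 - inner ℝ v ν ≤ τ / r := by
    rw [le_div_iff₀ hr]
    nlinarith
  have h6 : ‖v - ν‖ ^ 2 ≤ 2 * τ / r := by
    rw [norm_sub_sq_real, hv1, hν1]
    have : 2 * τ / r = 2 * (τ / r) := by ring
    rw [this]; linarith
  have h7 : ‖v - ν‖ ≤ Real.sqrt (2 * τ / r) := by
    rw [← Real.sqrt_sq (norm_nonneg (v - ν))]
    exact Real.sqrt_le_sqrt h6
  have hkey : ∀ w, ‖w‖ ≤ R → |inner ℝ v w - inner ℝ ν w| ≤ Real.sqrt (2 * τ / r) * R := by
    intro w hw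
    rw [← inner_sub_left]
    exact (abs_real_inner_le_norm _ _).trans
      (mul_le_mul h7 hw (norm_nonneg _) (Real.sqrt_nonneg _))
  have hmaxH : ∀ y ∈ Par Q r ∪ W, inner ℝ ν y ≤ inner ℝ ν x := by
    rintro y (hy | hy)
    · exact hνmax y hy
    · have a1 := abs_le.1 (hkey y (hR y (Or.inr hy)))
      have a2 := abs_le.1 (hkey x hRx)
      have a3 := htv y hy
      linarith [a1.1, a1.2, a2.1, a2.2]
  have hν0 : ν ≠ 0 := by rw [← norm_pos_iff, hν1]; norm_num
  refine mem_frontier_of_max hν0 (subset_convexHull ℝ _ (Or.inl hxC)) ?_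
  intro y hy
  have hconv : Convex ℝ {y : E | inner ℝ ν y ≤ inner ℝ ν x} := by
    have hl : IsLinearMap ℝ (fun y : E => inner ℝ ν y) :=
      ⟨fun a b => inner_add_right _ _ _, fun c a => by
        simp [real_inner_smul_right]⟩
    exact convex_halfSpace_le hl _
  exact convexHull_min hmaxH hconv hy

end Pool.Agent.Y821.CB
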