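import Mathlib

set_option autoImplicit false
set_option linter.unusedSectionVars false
open Set Metric Filter Topology MeasureTheory

namespace Pool.Agent.Y821.CB

variable {E : Type*} [NormedAddCommGroup E] [InnerProductSpace ℝ E] [FiniteDimensional ℝ E]
variable {I κ : Type} [Fintype I] [Fintype κ] {N : ℕ}

/-- The linear map of the system of equations for a common supporting hyperplane. -/
noncomputable def L (v : Fin N → E) : (E × ℝ) →ₗ[ℝ] (Fin N → ℝ) where
  toFun z := fun j => inner ℝ (v j) z.1 - z.2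
  map_add' a b := by
    funext j
    simp only [Prod.fst_add, Prod.snd_add, inner_add_right, Pi.add_apply]
    ring
  map_smul' c a := by
    funext j
    simp only [Prod.smul_fst, Prod.smul_snd, real_inner_smul_right, Pi.smul_apply, smul_eq_mul,
      RingHom.id_apply]
    ring

lemma bad_sub (hN : Module.finrank ℝ E + 1 = N) (v : Fin N → E) (k : Fin N → I)
    (hk : Function.Injective k) (σ : Fin N → ℝ) (hσ : ∀ j, σ j ≠ 0)
    (hL : ¬ Function.Injective (L v)) :
    ∃ s : Submodule ℝ (I → ℝ), s ≠ ⊤ ∧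
      ∀ ρ : I → ℝ, (∃ z, L v z = fun j => σ j * ρ (k j)) → ρ ∈ s := by
  let M : (I → ℝ) →ₗ[ℝ] (Fin N → ℝ) :=
    { toFun := fun ρ j => σ j * ρ (k j)
      map_add' := fun a b => by funext j; simp only [Pi.add_apply]; ring
      map_smul' := fun c a => by
        funext j; simp only [Pi.smul_apply, smul_eq_mul, RingHom.id_apply]; ring }
  have hfr : Module.finrank ℝ (E × ℝ) = Module.finrank ℝ (Fin N → ℝ) := by
    rw [Module.finrank_prod, Module.finrank_self, Module.finrank_fin_fun, hN]
  have hMs : Function.Surjective M := by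
    intro y
    refine ⟨Function.extend k (fun j => y j / σ j) 0, ?_⟩
    funext j
    show σ j * Function.extend k (fun j => y j / σ j) 0 (k j) = y j
    rw [hk.extend_apply]
    field_simp [hσ j]
  refine ⟨(LinearMap.range (L v)).comap M, ?_, ?_⟩
  · intro htop
    apply hL
    rw [LinearMap.injective_iff_surjective_of_finrank_eq_finrank hfr]
    intro y
    obtain ⟨ρ, rfl⟩ := hMs y
    have : ρ ∈ (LinearMap.range (L v)).comap M := by rw [htop]; trivial
    exact this
  · rintro ρ ⟨z, hz⟩
    exact ⟨z, hz⟩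

/-- Generic radii: for all sufficiently small multiples of suitable radii no hyperplane is at the
right distances from `dim E + 1` of the vertices. -/
theorem exists_radii (hN : Module.finrank ℝ E + 1 = N) (vert : I → κ → E) (a b : I → ℝ)
    (hab : ∀ i, a i < b i) :
    ∃ ρ : I → ℝ, (∀ i, a i < ρ i ∧ ρ i < b i) ∧ ∃ ε0 : ℝ, 0 < ε0 ∧ ∀ ε : ℝ, 0 < ε → ε < ε0 →
      ∀ (k : Fin N → I) (c : Fin N → κ) (σ : Fin N → ℝ), Function.Injective k →
        (∀ j, σ j = 1 ∨ σ j = -1) → ∀ (u : E) (t : ℝ), ‖u‖ = 1 →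
          ¬ ∀ j, inner ℝ u (vert (k j) (c j)) - t = σ j * (ε * ρ (k j)) := by
  classical
  let D : Type := (Fin N → I) × (Fin N → κ) × (Fin N → Bool)
  let vv : D → Fin N → E := fun D j => vert (D.1 j) (D.2.1 j)
  let sg : D → Fin N → ℝ := fun D j => if D.2.2 j then 1 else -1
  have hsg : ∀ D : D, ∀ j, sg D j ≠ 0 := by
    intro D j; simp only [sg]; split_ifs <;> norm_num
  -- the bad subspaces
  have hbad : ∀ D : D, ∃ s : Submodule ℝ (I → ℝ), s ≠ ⊤ ∧
      (Function.Injective D.1 → ¬ Function.Injective (L (vv D)) →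
        ∀ ρ : I → ℝ, (∃ z, L (vv D) z = fun j => sg D j * ρ (D.1 j)) → ρ ∈ s) := by
    intro D
    by_cases h1 : Function.Injective D.1
    · by_cases h2 : Function.Injective (L (vv D))
      · rcases isEmpty_or_nonempty I with hI | ⟨⟨i0⟩⟩
        · -- no members at all : `N` must be zero, impossible
          exfalso
          have hpos : 0 < N := by omega
          exact hI.elim (D.1 ⟨0, hpos⟩)
        · refine ⟨⊥, ?_, fun _ h => absurd h2 h⟩
          intro h
          have : (Pi.single i0 (1 : ℝ) : I → ℝ) ∈ (⊥ : Submodule ℝ (I → ℝ)) := by rw [h]; trivial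
          rw [Submodule.mem_bot] at this
          have h' := congrFun this i0
          simp at h'
      · obtain ⟨s, hs, h⟩ := bad_sub hN (vv D) D.1 h1 (sg D) (hsg D) h2
        exact ⟨s, hs, fun _ _ => h⟩
    · rcases isEmpty_or_nonempty I with hI | ⟨⟨i0⟩⟩
      · exfalso
        have hpos : 0 < N := by omega
        exact hI.elim (D.1 ⟨0, hpos⟩)
      · refine ⟨⊥, ?_, fun h => absurd h h1⟩
        intro h
        have : (Pi.single i0 (1 : ℝ) : I → ℝ) ∈ (⊥ : Submodule ℝ (I → ℝ)) := by rw [h]; trivial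
        rw [Submodule.mem_bot] at this
        have h' := congrFun this i0
        simp at h'
  choose s hs hsb using hbad
  -- a good vector in the box
  have hbox : ∃ ρ : I → ℝ, (∀ i, a i < ρ i ∧ ρ i < b i) ∧ ∀ D : D, ρ ∉ s D := by
    have hopen : IsOpen (Set.pi univ (fun i => Ioo (a i) (b i))) :=
      isOpen_set_pi finite_univ (fun i _ => isOpen_Ioo)
    have hne : (Set.pi univ (fun i => Ioo (a i) (b i))).Nonempty :=
      ⟨fun i => (a i + b i) / 2, fun i _ => ⟨by linarith [hab i], by linarith [hab i]⟩⟩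
    have hpos : 0 < volume (Set.pi univ (fun i => Ioo (a i) (b i))) := hopen.measure_pos volume hne
    have hnull : volume (⋃ D : D, (s D : Set (I → ℝ))) = 0 := by
      rw [measure_iUnion_null_iff]
      intro D
      exact Measure.addHaar_submodule volume (s D) (hs D)
    by_contra hcon
    push Not at hcon
    have hsub : Set.pi univ (fun i => Ioo (a i) (b i)) ⊆ ⋃ D : D, (s D : Set (I → ℝ)) := by
      intro ρ hρ
      obtain ⟨D, hD⟩ := hcon ρ (fun i => hρ i (mem_univ i))
      exact mem_iUnion.2 ⟨D, hD⟩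
    exact absurd (measure_mono_null hsub hnull) hpos.ne'
  obtain ⟨ρ, hρ, hρs⟩ := hbox
  -- the constants
  have hC : ∀ D : D, ∃ C : ℝ, 0 < C ∧ (Function.Injective (L (vv D)) →
      ∀ z : E × ℝ, ‖z‖ ≤ C * ‖L (vv D) z‖) := by
    intro D
    by_cases h : Function.Injective (L (vv D))
    · obtain ⟨K, hK0, hK⟩ := LinearMap.exists_antilipschitzWith (L (vv D))
        (LinearMap.ker_eq_bot.2 h)
      refine ⟨K, by exact_mod_cast hK0, fun _ z => ?_⟩
      have h2 := hK.le_mul_dist z 0
      rw [map_zero, dist_zero_right, dist_zero_right] at h2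
      exact h2
    · exact ⟨1, one_pos, fun h' => absurd h' h⟩
  choose C hC0 hC using hC
  set B : ℝ := 1 + ∑ i, |ρ i| with hB
  have hBi : ∀ i, |ρ i| ≤ B := by
    intro i
    have := Finset.single_le_sum (f := fun i => |ρ i|) (fun i _ => abs_nonneg _) (Finset.mem_univ i)
    rw [hB]; linarith
  have hB1 : 1 ≤ B := by
    have : 0 ≤ ∑ i, |ρ i| := Finset.sum_nonneg (fun i _ => abs_nonneg _)
    rw [hB]; linarith
  set S : ℝ := 1 + ∑ D : D, C D with hS
  have hSD : ∀ D, C D ≤ S := by
    intro D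
    have := Finset.single_le_sum (f := C) (fun i _ => (hC0 i).le) (Finset.mem_univ D)
    rw [hS]; linarith
  have hS1 : 1 ≤ S := by
    have : 0 ≤ ∑ D : D, C D := Finset.sum_nonneg (fun i _ => (hC0 i).le)
    rw [hS]; linarith
  refine ⟨ρ, hρ, 1 / (S * B + 1), by positivity, ?_⟩
  intro ε hε0 hε k c σ hk hσ u t hu hall
  let D0 : D := (k, c, fun j => decide (σ j = 1))
  have hsgσ : ∀ j, sg D0 j = σ j := by
    intro j
    simp only [sg, D0]
    rcases hσ j with h | h
    · simp [h]
    · have h2 : ¬ ((-1 : ℝ) = 1) := by norm_num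
      simp [h, h2]
  have hLz : L (vv D0) (u, t) = fun j => sg D0 j * (ε * ρ (k j)) := by
    funext j
    rw [hsgσ j, ← hall j]
    show inner ℝ (vert (k j) (c j)) u - t = _
    rw [real_inner_comm]
  by_cases hinj : Function.Injective (L (vv D0))
  · have h1 := hC D0 hinj (u, t)
    have h2 : ‖L (vv D0) (u, t)‖ ≤ ε * B := by
      rw [hLz, pi_norm_le_iff_of_nonneg (by positivity)]
      intro j
      rw [hsgσ j, Real.norm_eq_abs, abs_mul, abs_mul, abs_of_pos hε0]
      have : |σ j| = 1 := by rcases hσ j with h | h <;> rw [h] <;> norm_num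
      rw [this, one_mul]
      exact mul_le_mul_of_nonneg_left (hBi _) hε0.le
    have h3 : ‖u‖ ≤ ‖(u, t)‖ := by rw [Prod.norm_def]; exact le_max_left _ _
    have h4 : C D0 * ‖L (vv D0) (u, t)‖ ≤ S * (ε * B) :=
      mul_le_mul (hSD D0) h2 (norm_nonneg _) (by linarith)
    have h5 : S * (ε * B) < 1 := by
      rw [lt_div_iff₀ (by positivity)] at hε
      nlinarith
    rw [hu] at h3
    linarith
  · apply hρs D0
    apply hsb D0 hk hinj ρ
    refine ⟨(ε⁻¹) • (u, t), ?_⟩
    rw [map_smul, hLz]
    funext j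
    simp only [Pi.smul_apply, smul_eq_mul]
    show ε⁻¹ * (sg D0 j * (ε * ρ (k j))) = sg D0 j * ρ (k j)
    field_simp

end Pool.Agent.Y821.CB
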