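import Pool.Agent.Y821.CB.A
import Pool.Agent.Y821.CB.B

set_option autoImplicit false
set_option linter.unusedSectionVars false
open Set Metric Filter Topology
open scoped Pointwise

namespace Pool.Agent.Y821.CB

variable {E : Type*} [NormedAddCommGroup E] [InnerProductSpace ℝ E] [FiniteDimensional ℝ E]

/-- A convex body: a compact convex set with nonempty interior. -/
def IsConvexBody (K : Set E) : Prop := IsCompact K ∧ Convex ℝ K ∧ (interior K).Nonempty

/-- An outer parallel body: the Minkowski sum of a nonempty compact convex set and a closed ball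
of positive radius. -/
def IsOuterParallel (K : Set E) : Prop :=
  ∃ (Q : Set E) (r : ℝ), IsCompact Q ∧ Convex ℝ Q ∧ Q.Nonempty ∧ 0 < r ∧ K = Q + closedBall 0 r

/-- Some hyperplane `{x | ⟪u, x⟫ = t}` (with `u ≠ 0`) strictly separates `X` from `Y`. -/
def SeparatedByPlane (X Y : Set E) : Prop :=
  ∃ (u : E) (t : ℝ), u ≠ 0 ∧ (∀ x ∈ X, inner ℝ u x < t) ∧ (∀ y ∈ Y, t < inner ℝ u y)

/-- A family is separable if for any three distinct members `A, B, C` some hyperplane separates
`A ∪ B` from `C`. -/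
def Separable (F : Set (Set E)) : Prop :=
  ∀ A ∈ F, ∀ B ∈ F, ∀ C ∈ F, A ≠ B → A ≠ C → B ≠ C → SeparatedByPlane (A ∪ B) C

/-- The hyperplane `{x | ⟪u, x⟫ = t}` supports `K`: it meets `K`, and `K` lies on one of its two
sides. -/
def Supports (u : E) (t : ℝ) (K : Set E) : Prop :=
  (∃ x ∈ K, inner ℝ u x = t) ∧ ((∀ x ∈ K, inner ℝ u x ≤ t) ∨ (∀ x ∈ K, t ≤ inner ℝ u x))

/-- A family in a space of dimension `D` is nondegenerate if no `D + 1` members have a common
supporting hyperplane (whatever the sides on which they lie). -/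
def Nondegenerate (D : ℕ) (F : Set (Set E)) : Prop :=
  ∀ G ⊆ F, G.ncard = D + 1 → ¬ ∃ (u : E) (t : ℝ), u ≠ 0 ∧ ∀ K ∈ G, Supports u t K

/-- The members of `F` are in convex position: for every member `C`, the boundary of
`conv (⋃ F)` contains a piece `S` of the boundary of `C`, that is, a subset of `∂C` with
nonempty interior relative to `∂C`. -/
def InConvexPosition (F : Set (Set E)) : Prop :=
  ∀ C ∈ F, ∃ S : Set E, S ⊆ frontier C ∧ S ⊆ frontier (convexHull ℝ (⋃₀ F)) ∧
    ∃ V : Set E, IsOpen V ∧ (V ∩ frontier C).Nonempty ∧ V ∩ frontier C ⊆ S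

lemma Par_body {Q : Set E} {r : ℝ} (hQc : IsCompact Q) (hQ : Convex ℝ Q) (hne : Q.Nonempty)
    (hr : 0 < r) : IsConvexBody (Par Q r) := by
  obtain ⟨q, hq⟩ := hne
  refine ⟨Par_compact hQc, Par_convex hQ, ⟨q, Par_interior hq (by simpa using hr)⟩⟩

/-- A member that has a point strictly beyond all the others satisfies the condition of convex
position. -/
lemma piece_family {F : Set (Set E)} (hF : F.Finite) (hFc : ∀ K ∈ F, IsCompact K) {C : Set E}
    (hC : C ∈ F) {Q : Set E} {r : ℝ} (hr : 0 < r) (hQc : IsCompact Q) (hQ : Convex ℝ Q)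
    (hCQ : C = Par Q r) {u : E} {t : ℝ} (hu : u ≠ 0)
    (ht : ∀ K ∈ F, K ≠ C → ∀ x ∈ K, inner ℝ u x ≤ t) (hx : ∃ x ∈ C, t < inner ℝ u x) :
    ∃ S : Set E, S ⊆ frontier C ∧ S ⊆ frontier (convexHull ℝ (⋃₀ F)) ∧
    ∃ V : Set E, IsOpen V ∧ (V ∩ frontier C).Nonempty ∧ V ∩ frontier C ⊆ S := by
  have hW : Bornology.IsBounded (⋃₀ (F \ {C})) := by
    rw [Bornology.isBounded_sUnion (hF.subset sdiff_subset)]
    intro K hK
    exact (hFc K hK.1).isBounded
  have hun : Par Q r ∪ ⋃₀ (F \ {C}) = ⋃₀ F := by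
    ext x
    constructor
    · rintro (hx | ⟨K, hK, hx⟩)
      · exact ⟨C, hC, by rw [hCQ]; exact hx⟩
      · exact ⟨K, hK.1, hx⟩
    · rintro ⟨K, hK, hx⟩
      by_cases h : K = C
      · left; rw [← hCQ, ← h]; exact hx
      · right; exact ⟨K, ⟨hK, h⟩, hx⟩
  obtain ⟨V, hVo, hVn, hV⟩ := piece (W := ⋃₀ (F \ {C})) (t := t) (u := u) hr hQc hQ hW hu
    (by rintro x ⟨K, hK, hx⟩; exact ht K hK.1 hK.2 x hx) (by rw [← hCQ]; exact hx)
  rw [hun, ← hCQ] at hV
  rw [← hCQ] at hVn
  exact ⟨V ∩ frontier C, inter_subset_right, hV, V, hVo, hVn, subset_rfl⟩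

/-! ### At most three members -/

theorem small_family [Nontrivial E] {F : Set (Set E)} (hF : F.Finite) (hn : F.ncard ≤ 3)
    (hP : ∀ K ∈ F, IsOuterParallel K) (hD : F.PairwiseDisjoint id) (hS : Separable F) :
    InConvexPosition F := by
  intro C hC
  have hPar : ∀ K ∈ F, IsCompact K ∧ Convex ℝ K ∧ K.Nonempty := by
    intro K hK
    obtain ⟨Q, r, h1, h2, h3, h4, h5⟩ := hP K hK
    have h := Par_body h1 h2 h3 h4
    rw [h5]
    exact ⟨h.1, h.2.1, h.2.2.mono interior_subset⟩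
  obtain ⟨Q, r, hQc, hQ, hQn, hr, hCQ⟩ := hP C hC
  obtain ⟨u, t, hu, ht, hx⟩ : ∃ (u : E) (t : ℝ), u ≠ 0 ∧
      (∀ K ∈ F, K ≠ C → ∀ x ∈ K, inner ℝ u x ≤ t) ∧ ∃ x ∈ C, t < inner ℝ u x := by
    have hcard : (F \ {C}).ncard ≤ 2 := by
      have := Set.ncard_sdiff_singleton_add_one hC hF
      omega
    have hfin : (F \ {C}).Finite := hF.subset sdiff_subset
    obtain ⟨x0, hx0⟩ := (hPar C hC).2.2
    have h012 : (F \ {C}).ncard = 0 ∨ (F \ {C}).ncard = 1 ∨ (F \ {C}).ncard = 2 := by omega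
    rcases h012 with h | h | h
    · rw [Set.ncard_eq_zero hfin] at h
      obtain ⟨u, hu⟩ := exists_ne (0 : E)
      refine ⟨u, inner ℝ u x0 - 1, hu, ?_, x0, hx0, by linarith⟩
      intro K hK hKC
      exact absurd (show K ∈ F \ {C} from ⟨hK, hKC⟩) (by rw [h]; simp)
    · rw [Set.ncard_eq_one] at h
      obtain ⟨A, hA⟩ := h
      have hAF : A ∈ F \ {C} := by rw [hA]; simp
      have hdis : Disjoint A C := hD hAF.1 hC hAF.2
      obtain ⟨f, a, b, h1, hab, h2⟩ := geometric_hahn_banach_compact_closed (hPar A hAF.1).2.1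
        (hPar A hAF.1).1 (hPar C hC).2.1 (hPar C hC).1.isClosed hdis
      set u : E := (InnerProductSpace.toDual ℝ E).symm f with hu
      have hin : ∀ x, inner ℝ u x = f x := fun x => InnerProductSpace.toDual_symm_apply
      obtain ⟨y0, hy0⟩ := (hPar A hAF.1).2.2
      refine ⟨u, a, ?_, ?_, x0, hx0, ?_⟩
      · intro h0
        have e1 := h1 y0 hy0
        have e2 := h2 x0 hx0
        rw [← hin, h0, inner_zero_left] at e1 e2
        linarith
      · intro K hK hKC x hx
        have : K ∈ F \ {C} := ⟨hK, hKC⟩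
        rw [hA, mem_singleton_iff] at this
        subst this
        rw [hin]
        exact (h1 x hx).le
      · rw [hin]
        exact hab.trans (h2 x0 hx0)
    · rw [Set.ncard_eq_two] at h
      obtain ⟨A, B, hAB, hAB'⟩ := h
      have hAF : A ∈ F \ {C} := by rw [hAB']; simp
      have hBF : B ∈ F \ {C} := by rw [hAB']; simp
      obtain ⟨u, t, hu, h1, h2⟩ := hS A hAF.1 B hBF.1 C hC hAB hAF.2 hBF.2
      refine ⟨u, t, hu, ?_, x0, hx0, h2 x0 hx0⟩
      intro K hK hKC x hx
      have : K ∈ F \ {C} := ⟨hK, hKC⟩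
      rw [hAB'] at this
      rcases this with h | h
      · subst h; exact (h1 x (Or.inl hx)).le
      · rw [mem_singleton_iff] at h
        subst h; exact (h1 x (Or.inr hx)).le
  exact piece_family hF (fun K hK => (hPar K hK).1) hC hr hQc hQ hCQ hu ht hx

/-! ### The construction -/

variable {J : Type} [Fintype J] [DecidableEq J] [Nonempty J]

/-- The configurations of points from which the families are made. -/
structure Config (P : J → E) : Prop where
  vert : ∀ j, ∃ u : E, inner ℝ u (P j) = 1 ∧ ∀ l, l ≠ j → inner ℝ u (P l) < 1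
  pair : ∀ i j, i ≠ j → ∃ w : E, inner ℝ w (P i) = 1 ∧ inner ℝ w (P j) = 1 ∧
    ∀ l, inner ℝ w (P l) ≤ 1
  zero : (0 : E) ∈ convexHull ℝ (range P)

/-- The vertices of the cores of the members. -/
def vtx (P : J → E) (δ : ℝ) : Option J → J → E
  | none => fun l => (1 - δ) • P l
  | some j => fun _ => P j

/-- The members. -/
def mem (P : J → E) (δ : ℝ) (r : Option J → ℝ) (i : Option J) : Set E :=
  Par (convexHull ℝ (range (vtx P δ i))) (r i)

lemma core_compact (P : J → E) (δ : ℝ) (i : Option J) :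
    IsCompact (convexHull ℝ (range (vtx P δ i))) := (finite_range _).isCompact_convexHull ℝ

lemma core_le {P : J → E} {δ : ℝ} {i : Option J} {u : E} {s : ℝ}
    (h : ∀ l, inner ℝ u (vtx P δ i l) ≤ s) :
    ∀ q ∈ convexHull ℝ (range (vtx P δ i)), inner ℝ u q ≤ s := by
  intro q hq
  have hconv : Convex ℝ {y : E | inner ℝ u y ≤ s} := by
    have hl : IsLinearMap ℝ (fun y : E => inner ℝ u y) :=
      ⟨fun a b => inner_add_right _ _ _, fun c a => by
        simp [real_inner_smul_right]⟩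
    exact convex_halfSpace_le hl _
  have hsub : range (vtx P δ i) ⊆ {y : E | inner ℝ u y ≤ s} := by
    rintro _ ⟨l, rfl⟩; exact h l
  exact convexHull_min hsub hconv hq

lemma mem_le {P : J → E} {δ : ℝ} {r : Option J → ℝ} {i : Option J} {u : E} {s : ℝ}
    (h : ∀ l, inner ℝ u (vtx P δ i l) ≤ s) {x : E} (hx : x ∈ mem P δ r i) :
    inner ℝ u x ≤ s + r i * ‖u‖ := inner_le_Par (core_le h) hx

lemma mem_ge {P : J → E} {δ : ℝ} {r : Option J → ℝ} {i : Option J} {u : E} {s : ℝ}
    (h : ∀ l, s ≤ inner ℝ u (vtx P δ i l)) {x : E} (hx : x ∈ mem P δ r i) :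
    s - r i * ‖u‖ ≤ inner ℝ u x := by
  have h1 := mem_le (u := -u) (s := -s) (fun l => by rw [inner_neg_left]; linarith [h l]) hx
  rw [inner_neg_left, norm_neg] at h1
  linarith

lemma vtx_mem {P : J → E} {δ : ℝ} {r : Option J → ℝ} (i : Option J) (l : J) {b : E}
    (hb : ‖b‖ ≤ r i) : vtx P δ i l + b ∈ mem P δ r i :=
  mem_Par.2 ⟨_, subset_convexHull ℝ _ ⟨l, rfl⟩, b, hb, rfl⟩

/-- A supporting hyperplane of a member is at distance `r` from a vertex of the core. -/
lemma supports_vertex {P : J → E} {δ : ℝ} {r : Option J → ℝ} {i : Option J} (hr : 0 ≤ r i)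
    {u : E} {t : ℝ} (hu : ‖u‖ = 1) (h : Supports u t (mem P δ r i)) :
    ∃ (c : J) (σ : ℝ), (σ = 1 ∨ σ = -1) ∧ inner ℝ u (vtx P δ i c) - t = σ * r i := by
  obtain ⟨⟨x, hx, hxt⟩, h | h⟩ := h
  · obtain ⟨c, hc⟩ := Finite.exists_max (fun l => inner ℝ u (vtx P δ i l))
    refine ⟨c, -1, Or.inr rfl, ?_⟩
    have h1 := mem_le hc hx
    have h2 := h _ (vtx_mem (r := r) i c (b := r i • u)
      (by rw [norm_smul, hu, Real.norm_of_nonneg hr, mul_one]))
    rw [inner_add_right, real_inner_smul_right, real_inner_self_eq_norm_sq, hu] at h2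
    rw [hu] at h1
    linarith
  · obtain ⟨c, hc⟩ := Finite.exists_min (fun l => inner ℝ u (vtx P δ i l))
    refine ⟨c, 1, Or.inl rfl, ?_⟩
    have h1 := mem_ge hc hx
    have h2 := h _ (vtx_mem (r := r) i c (b := -(r i • u))
      (by rw [norm_neg, norm_smul, hu, Real.norm_of_nonneg hr, mul_one]))
    rw [inner_add_right, inner_neg_right, real_inner_smul_right, real_inner_self_eq_norm_sq, hu] at h2
    rw [hu] at h1
    linarith

end Pool.Agent.Y821.CB
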