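import Pool.Agent.Y821.CB.C

set_option autoImplicit false
set_option linter.unusedSectionVars false
open Set Metric Filter Topology
open scoped Pointwise

namespace Pool.Agent.Y821.CB

variable {E : Type*} [NormedAddCommGroup E] [InnerProductSpace ℝ E] [FiniteDimensional ℝ E]
variable {J : Type} [Fintype J] [DecidableEq J] [Nonempty J]

lemma ev_lt {a b : ℝ} (c : ℝ) (h : a < b) : ∀ᶠ ε : ℝ in 𝓝[>] 0, a + ε * c < b := by
  have hc : Continuous (fun ε : ℝ => a + ε * c) := by fun_prop
  have h2 : Tendsto (fun ε : ℝ => a + ε * c) (𝓝[>] 0) (𝓝 (a + 0 * c)) :=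
    (hc.tendsto 0).mono_left nhdsWithin_le_nhds
  exact h2.eventually_lt_const (by simpa using h)

/-- The family made from a configuration. -/
theorem family_of_config {P : J → E} (hP : Config P) : ∃ F : Set (Set E),
    F.Finite ∧ F.ncard = Fintype.card J + 1 ∧ (∀ K ∈ F, IsConvexBody K ∧ IsOuterParallel K) ∧
    F.PairwiseDisjoint id ∧ Separable F ∧ Nondegenerate (Module.finrank ℝ E) F ∧
    (∀ G ⊆ F, G ≠ F → InConvexPosition G) ∧ ¬ InConvexPosition F := by
  classical
  choose u hu1 hu2 using hP.vert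
  have hw' : ∀ i j, ∃ w : E, i ≠ j → (inner ℝ w (P i) = 1 ∧ inner ℝ w (P j) = 1 ∧
      ∀ l, inner ℝ w (P l) ≤ 1) := by
    intro i j
    by_cases h : i = j
    · exact ⟨0, fun h' => absurd h h'⟩
    · obtain ⟨w, hw⟩ := hP.pair i j h
      exact ⟨w, fun _ => hw⟩
  choose w hw using hw'
  have hule : ∀ j l, inner ℝ (u j) (P l) ≤ 1 := by
    intro j l
    by_cases h : l = j
    · rw [h, hu1]
    · exact (hu2 j l h).le
  -- the contraction
  obtain ⟨δ, hδ0, hδ1, hδ⟩ : ∃ δ : ℝ, 0 < δ ∧ δ < 1 ∧ ∀ j l, l ≠ j →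
      inner ℝ (u j) (P l) < 1 - 2 * δ := by
    have e1 : ∀ᶠ δ : ℝ in 𝓝[>] 0, 0 < δ := self_mem_nhdsWithin
    have e2 : ∀ᶠ δ : ℝ in 𝓝[>] 0, δ < 1 := nhdsWithin_le_nhds (Iio_mem_nhds (by norm_num))
    have e3 : ∀ᶠ δ : ℝ in 𝓝[>] 0, ∀ j l, l ≠ j → inner ℝ (u j) (P l) + δ * 2 < 1 := by
      rw [eventually_all]; intro j
      rw [eventually_all]; intro l
      by_cases h : l = j
      · exact Eventually.of_forall (fun δ h' => absurd h h')
      · filter_upwards [ev_lt 2 (hu2 j l h)] with δ hδ _ using hδ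
    obtain ⟨δ, h1, h2, h3⟩ := (e1.and (e2.and e3)).exists
    exact ⟨δ, h1, h2, fun j l h => by linarith [h3 j l h]⟩
  -- the radii
  obtain ⟨ρ, hρ, ε0, hε0, hgen⟩ := exists_radii (N := Module.finrank ℝ E + 1) rfl (vtx P δ)
    (fun i : Option J => if i = none then (1/4 : ℝ) else 1)
    (fun i : Option J => if i = none then (1/2 : ℝ) else 2)
    (by intro i; split_ifs <;> norm_num)
  have hρn : 1/4 < ρ none ∧ ρ none < 1/2 := by simpa using hρ none
  have hρs : ∀ j, 1 < ρ (some j) ∧ ρ (some j) < 2 := fun j => by simpa using hρ (some j)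
  have hρ0 : ∀ i, 0 < ρ i := by
    rintro (_ | j)
    · linarith [hρn.1]
    · linarith [(hρs j).1]
  obtain ⟨ε, hεp, hεlt, f1, f2, f3, f4, f5, f6⟩ : ∃ ε : ℝ, 0 < ε ∧ ε < ε0 ∧
      (∀ j l, l ≠ j → inner ℝ (u j) (P l) + ε * (ρ (some l) * ‖u j‖) < 1 - 2 * δ) ∧
      (∀ j, (1 - δ / 2) + ε * (ρ (some j) * ‖u j‖) < 1) ∧
      (∀ j, (1 - δ) + ε * (ρ none * ‖u j‖) < 1 - δ / 2) ∧
      (∀ i j, (1 - δ) + ε * (ρ none * ‖w i j‖) < 1 - δ / 2) ∧
      (∀ i j, (1 - δ / 2) + ε * (ρ (some i) * ‖w i j‖) < 1) ∧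
      (∀ i j, (1 - δ / 2) + ε * (ρ (some j) * ‖w i j‖) < 1) := by
    have e1 : ∀ᶠ ε : ℝ in 𝓝[>] 0, 0 < ε := self_mem_nhdsWithin
    have e2 : ∀ᶠ ε : ℝ in 𝓝[>] 0, ε < ε0 := nhdsWithin_le_nhds (Iio_mem_nhds hε0)
    have g1 : ∀ᶠ ε : ℝ in 𝓝[>] 0, ∀ j l, l ≠ j →
        inner ℝ (u j) (P l) + ε * (ρ (some l) * ‖u j‖) < 1 - 2 * δ := by
      rw [eventually_all]; intro j
      rw [eventually_all]; intro l
      by_cases h : l = j
      · exact Eventually.of_forall (fun δ h' => absurd h h')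
      · filter_upwards [ev_lt (ρ (some l) * ‖u j‖) (hδ j l h)] with δ hδ _ using hδ
    have g2 : ∀ᶠ ε : ℝ in 𝓝[>] 0, ∀ j, (1 - δ / 2) + ε * (ρ (some j) * ‖u j‖) < 1 := by
      rw [eventually_all]; intro j
      exact ev_lt _ (by linarith)
    have g3 : ∀ᶠ ε : ℝ in 𝓝[>] 0, ∀ j, (1 - δ) + ε * (ρ none * ‖u j‖) < 1 - δ / 2 := by
      rw [eventually_all]; intro j
      exact ev_lt _ (by linarith)
    have g4 : ∀ᶠ ε : ℝ in 𝓝[>] 0, ∀ i j, (1 - δ) + ε * (ρ none * ‖w i j‖) < 1 - δ / 2 := by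
      rw [eventually_all]; intro i
      rw [eventually_all]; intro j
      exact ev_lt _ (by linarith)
    have g5 : ∀ᶠ ε : ℝ in 𝓝[>] 0, ∀ i j, (1 - δ / 2) + ε * (ρ (some i) * ‖w i j‖) < 1 := by
      rw [eventually_all]; intro i
      rw [eventually_all]; intro j
      exact ev_lt _ (by linarith)
    have g6 : ∀ᶠ ε : ℝ in 𝓝[>] 0, ∀ i j, (1 - δ / 2) + ε * (ρ (some j) * ‖w i j‖) < 1 := by
      rw [eventually_all]; intro i
      rw [eventually_all]; intro j
      exact ev_lt _ (by linarith)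
    obtain ⟨ε, h1, h2, h3, h4, h5, h6, h7, h8⟩ :=
      (e1.and (e2.and (g1.and (g2.and (g3.and (g4.and (g5.and g6))))))).exists
    exact ⟨ε, h1, h2, h3, h4, h5, h6, h7, h8⟩
  set r : Option J → ℝ := fun i => ε * ρ i with hr
  have hr0 : ∀ i, 0 < r i := fun i => mul_pos hεp (hρ0 i)
  -- the inequalities for the members
  have hnone : ∀ (v : E), (∀ l, inner ℝ v (P l) ≤ 1) → ∀ l, inner ℝ v (vtx P δ none l) ≤ 1 - δ := by
    intro v hv l
    show inner ℝ v ((1 - δ) • P l) ≤ 1 - δ
    rw [real_inner_smul_right]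
    have := hv l
    nlinarith
  have hA' : ∀ j l, l ≠ j → ∀ x ∈ mem P δ r (some l), inner ℝ (u j) x < 1 - 2 * δ := by
    intro j l hlj x hx
    have h1 := mem_le (u := u j) (s := inner ℝ (u j) (P l)) (fun _ => le_refl _) hx
    have h2 := f1 j l hlj
    have : r (some l) * ‖u j‖ = ε * (ρ (some l) * ‖u j‖) := by rw [hr]; ring
    linarith
  have hAn : ∀ j, ∀ x ∈ mem P δ r none, inner ℝ (u j) x < 1 - δ / 2 := by
    intro j x hx
    have h1 := mem_le (u := u j) (hnone (u j) (hule j)) hx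
    have h2 := f3 j
    have : r none * ‖u j‖ = ε * (ρ none * ‖u j‖) := by rw [hr]; ring
    linarith
  have hA : ∀ j, ∀ i, i ≠ some j → ∀ x ∈ mem P δ r i, inner ℝ (u j) x < 1 - δ / 2 := by
    rintro j (_ | l) hi x hx
    · exact hAn j x hx
    · have := hA' j l (fun h => hi (by rw [h])) x hx
      linarith
  have hB : ∀ j, ∀ x ∈ mem P δ r (some j), 1 - δ / 2 < inner ℝ (u j) x := by
    intro j x hx
    have h1 := mem_ge (P := P) (δ := δ) (r := r) (i := some j) (u := u j) (s := 1)
      (fun _ => (hu1 j).ge) hx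
    have h2 := f2 j
    have : r (some j) * ‖u j‖ = ε * (ρ (some j) * ‖u j‖) := by rw [hr]; ring
    linarith
  have hW1 : ∀ i j, i ≠ j → ∀ x ∈ mem P δ r none, inner ℝ (w i j) x < 1 - δ / 2 := by
    intro i j hij x hx
    have h1 := mem_le (u := w i j) (hnone (w i j) (hw i j hij).2.2) hx
    have h2 := f4 i j
    have : r none * ‖w i j‖ = ε * (ρ none * ‖w i j‖) := by rw [hr]; ring
    linarith
  have hW2 : ∀ i j, i ≠ j → ∀ x ∈ mem P δ r (some i), 1 - δ / 2 < inner ℝ (w i j) x := by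
    intro i j hij x hx
    have h1 := mem_ge (P := P) (δ := δ) (r := r) (i := some i) (u := w i j) (s := 1)
      (fun _ => (hw i j hij).1.ge) hx
    have h2 := f5 i j
    have : r (some i) * ‖w i j‖ = ε * (ρ (some i) * ‖w i j‖) := by rw [hr]; ring
    linarith
  have hW3 : ∀ i j, i ≠ j → ∀ x ∈ mem P δ r (some j), 1 - δ / 2 < inner ℝ (w i j) x := by
    intro i j hij x hx
    have h1 := mem_ge (P := P) (δ := δ) (r := r) (i := some j) (u := w i j) (s := 1)
      (fun _ => (hw i j hij).2.1.ge) hx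
    have h2 := f6 i j
    have : r (some j) * ‖w i j‖ = ε * (ρ (some j) * ‖w i j‖) := by rw [hr]; ring
    linarith
  have hu0 : ∀ j, u j ≠ 0 := by
    intro j h
    have := hu1 j
    rw [h, inner_zero_left] at this
    norm_num at this
  have hw0 : ∀ i j, i ≠ j → w i j ≠ 0 := by
    intro i j hij h
    have := (hw i j hij).1
    rw [h, inner_zero_left] at this
    norm_num at this
  have hvtx : ∀ i l, vtx P δ i l ∈ mem P δ r i := by
    intro i l
    have := vtx_mem (P := P) (δ := δ) (r := r) i l (b := 0) (by simpa using (hr0 i).le)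
    simpa using this
  have hdis0 : ∀ j i, i ≠ some j → Disjoint (mem P δ r i) (mem P δ r (some j)) := by
    intro j i hi
    rw [Set.disjoint_left]
    intro x hx hx'
    have h1 := hA j i hi x hx
    have h2 := hB j x hx'
    linarith
  have hdis : ∀ i i', i ≠ i' → Disjoint (mem P δ r i) (mem P δ r i') := by
    intro i i' h
    rcases i' with _ | j
    · rcases i with _ | j
      · exact absurd rfl h
      · exact (hdis0 j none (by simp)).symm
    · exact hdis0 j i h
  obtain ⟨l0⟩ : Nonempty J := inferInstance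
  have hinj : Function.Injective (mem P δ r) := by
    intro i i' h
    by_contra hne
    have h1 := hdis i i' hne
    rw [h, disjoint_self] at h1
    have h2 := hvtx i' l0
    rw [h1] at h2
    exact h2
  have hbody : ∀ i, IsConvexBody (mem P δ r i) := fun i =>
    Par_body (core_compact P δ i) (convex_convexHull ℝ _)
      ⟨_, subset_convexHull ℝ _ ⟨l0, rfl⟩⟩ (hr0 i)
  refine ⟨range (mem P δ r), finite_range _, ?_, ?_, ?_, ?_, ?_, ?_, ?_⟩
  · rw [Set.ncard_range_of_injective hinj, Nat.card_eq_fintype_card, Fintype.card_option]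
  · rintro _ ⟨i, rfl⟩
    exact ⟨hbody i, _, _, core_compact P δ i, convex_convexHull ℝ _,
      ⟨_, subset_convexHull ℝ _ ⟨l0, rfl⟩⟩, hr0 i, rfl⟩
  · rintro _ ⟨i, rfl⟩ _ ⟨i', rfl⟩ h
    exact hdis i i' (fun h' => h (by rw [h']))
  · rintro _ ⟨a, rfl⟩ _ ⟨b, rfl⟩ _ ⟨c, rfl⟩ hab hac hbc
    rcases c with _ | j
    · rcases a with _ | i
      · exact absurd rfl hac
      rcases b with _ | j
      · exact absurd rfl hbc
      have hij : i ≠ j := fun h => hab (by rw [h])
      refine ⟨-w i j, -(1 - δ / 2), by simpa using hw0 i j hij, ?_, ?_⟩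
      · rintro x (hx | hx)
        · rw [inner_neg_left]; linarith [hW2 i j hij x hx]
        · rw [inner_neg_left]; linarith [hW3 i j hij x hx]
      · intro x hx
        rw [inner_neg_left]; linarith [hW1 i j hij x hx]
    · refine ⟨u j, 1 - δ / 2, hu0 j, ?_, hB j⟩
      rintro x (hx | hx)
      · exact hA j a (fun h => hac (by rw [h])) x hx
      · exact hA j b (fun h => hbc (by rw [h])) x hx
  · -- nondegenerate
    rintro G hG hcard ⟨v, t, hv, hsup⟩
    have hvn : 0 < ‖v‖ := norm_pos_iff.2 hv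
    set v' : E := ‖v‖⁻¹ • v with hv'
    have hv'1 : ‖v'‖ = 1 := by rw [hv', norm_smul, norm_inv, norm_norm, inv_mul_cancel₀ hvn.ne']
    have hsup' : ∀ K ∈ G, Supports v' (‖v‖⁻¹ * t) K := by
      intro K hK
      obtain ⟨⟨x, hx, hxt⟩, h⟩ := hsup K hK
      refine ⟨⟨x, hx, by rw [hv', real_inner_smul_left, hxt]⟩, ?_⟩
      rcases h with h | h
      · left; intro y hy
        rw [hv', real_inner_smul_left]
        exact mul_le_mul_of_nonneg_left (h y hy) (by positivity)
      · right; intro y hy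
        rw [hv', real_inner_smul_left]
        exact mul_le_mul_of_nonneg_left (h y hy) (by positivity)
    have hG' : (mem P δ r ⁻¹' G).ncard = Module.finrank ℝ E + 1 := by
      rw [← hcard, ← Set.ncard_image_of_injective _ hinj, Set.image_preimage_eq_of_subset hG]
    have hcardT : Nat.card (mem P δ r ⁻¹' G : Set (Option J)) = Module.finrank ℝ E + 1 := by
      rw [Nat.card_coe_set_eq, hG']
    let e := Finite.equivFinOfCardEq hcardT
    let k : Fin (Module.finrank ℝ E + 1) → Option J := fun j => (e.symm j).1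
    have hk : Function.Injective k := Subtype.val_injective.comp e.symm.injective
    have hkG : ∀ j, mem P δ r (k j) ∈ G := fun j => (e.symm j).2
    have hv3 : ∀ j, ∃ (c : J) (σ : ℝ), (σ = 1 ∨ σ = -1) ∧
        inner ℝ v' (vtx P δ (k j) c) - ‖v‖⁻¹ * t = σ * r (k j) := fun j =>
      supports_vertex (hr0 _).le hv'1 (hsup' _ (hkG j))
    choose c σ hσ hc using hv3
    exact hgen ε hεp hεlt k c σ hk hσ v' _ hv'1 hc
  · -- proper subfamilies
    intro G hG hGne C hC
    have hGfin : G.Finite := (finite_range _).subset hG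
    have hGc : ∀ K ∈ G, IsCompact K := by
      intro K hK
      obtain ⟨i, rfl⟩ := hG hK
      exact (hbody i).1
    obtain ⟨i, rfl⟩ := hG hC
    rcases i with _ | j
    · -- a ball is missing
      obtain ⟨j0, hj0⟩ : ∃ j0, mem P δ r (some j0) ∉ G := by
        by_contra hcon
        push Not at hcon
        apply hGne
        refine subset_antisymm hG ?_
        rintro _ ⟨i, rfl⟩
        rcases i with _ | j
        · exact hC
        · exact hcon j
      refine piece_family hGfin hGc hC (hr0 none) (core_compact P δ none) (convex_convexHull ℝ _)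
        rfl (u := u j0) (t := 1 - 2 * δ) (hu0 j0) ?_ ⟨_, hvtx none j0, ?_⟩
      · intro K hK hKC x hx
        obtain ⟨i, rfl⟩ := hG hK
        rcases i with _ | l
        · exact absurd rfl hKC
        · have hl : l ≠ j0 := fun h => hj0 (by rw [← h]; exact hK)
          exact (hA' j0 l hl x hx).le
      · show 1 - 2 * δ < inner ℝ (u j0) ((1 - δ) • P j0)
        rw [real_inner_smul_right, hu1]
        linarith
    · refine piece_family hGfin hGc hC (hr0 (some j)) (core_compact P δ (some j))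
        (convex_convexHull ℝ _) rfl (u := u j) (t := 1 - δ / 2) (hu0 j) ?_ ⟨_, hvtx (some j) j, ?_⟩
      · intro K hK hKC x hx
        obtain ⟨i, rfl⟩ := hG hK
        exact (hA j i (fun h => hKC (by rw [h])) x hx).le
      · show 1 - δ / 2 < inner ℝ (u j) (P j)
        rw [hu1]
        linarith
  · -- the whole family
    intro h
    obtain ⟨S, -, hS, V, -, ⟨x, hx⟩, hV⟩ := h _ ⟨none, rfl⟩
    have hxS := hS (hV hx)
    have hxm : x ∈ mem P δ r none := (hbody none).1.isClosed.frontier_subset hx.2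
    apply hxS.2
    obtain ⟨q, hq, b, hb, rfl⟩ := mem_Par.1 hxm
    have hsub : range (vtx P δ none) ⊆ convexHull ℝ (range P) := by
      rintro _ ⟨l, rfl⟩
      have hl : P l ∈ convexHull ℝ (range P) := subset_convexHull ℝ _ ⟨l, rfl⟩
      exact (convex_convexHull ℝ (range P)).smul_mem_of_zero_mem hP.zero hl
        ⟨by linarith, by linarith⟩
    have hqP : q ∈ convexHull ℝ (range P) := convexHull_min hsub (convex_convexHull ℝ _) hq
    rw [mem_interior]
    refine ⟨ball (q + b) (ε / 2), ?_, isOpen_ball, mem_ball_self (by positivity)⟩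
    intro y hy
    rw [mem_ball, dist_eq_norm] at hy
    have hby : ‖b + (y - (q + b))‖ ≤ ε := by
      refine (norm_add_le _ _).trans ?_
      have : r none ≤ ε / 2 := by
        show ε * ρ none ≤ ε / 2
        nlinarith [hρn.2]
      linarith
    have hconv := (convex_convexHull ℝ (⋃₀ range (mem P δ r))).translate_preimage_left
      (b + (y - (q + b)))
    have hsub2 : range P ⊆ (fun z => z + (b + (y - (q + b)))) ⁻¹'
        (convexHull ℝ (⋃₀ range (mem P δ r))) := by
      rintro _ ⟨l, rfl⟩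
      apply subset_convexHull ℝ _
      refine ⟨_, ⟨some l, rfl⟩, ?_⟩
      refine vtx_mem (P := P) (δ := δ) (r := r) (some l) l (hby.trans ?_)
      show ε ≤ ε * ρ (some l)
      nlinarith [(hρs l).1]
    have h2 := convexHull_min hsub2 hconv hqP
    have h3 : q + (b + (y - (q + b))) = y := by abel
    have h4 : q + (b + (y - (q + b))) ∈ convexHull ℝ (⋃₀ range (mem P δ r)) := h2
    rwa [h3] at h4

end Pool.Agent.Y821.CB
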