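import Pool.Agent.Y821.CB.D

set_option autoImplicit false
set_option linter.unusedSectionVars false
open Set Metric Filter Topology

namespace Pool.Agent.Y821.CB

variable {d m : ℕ}

/-- The angles. -/
noncomputable def ang (j : ℕ) : ℝ := Real.pi / j

lemma ang_nonneg (j : ℕ) : 0 ≤ ang j := div_nonneg Real.pi_pos.le (Nat.cast_nonneg _)

lemma ang_le (j : ℕ) : ang j ≤ Real.pi := by
  unfold ang
  rcases Nat.eq_zero_or_pos j with h | h
  · rw [h, Nat.cast_zero, div_zero]; exact Real.pi_pos.le
  · exact div_le_self Real.pi_pos.le (by exact_mod_cast h)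

lemma ang_inj {i j : ℕ} (h : ang i = ang j) : i = j := by
  unfold ang at h
  rw [div_eq_mul_inv, div_eq_mul_inv] at h
  have h2 := mul_left_cancel₀ Real.pi_pos.ne' h
  exact_mod_cast inv_injective h2

lemma cos_lt {i j : ℕ} (h : i ≠ j) :
    Real.cos (ang i) * Real.cos (ang j) + Real.sin (ang i) * Real.sin (ang j) < 1 := by
  rw [← Real.cos_sub]
  refine lt_of_le_of_ne (Real.cos_le_one _) fun h1 => h ?_
  have hp := Real.pi_pos
  rw [Real.cos_eq_one_iff_of_lt_of_lt (by linarith [ang_nonneg i, ang_le j])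
    (by linarith [ang_nonneg j, ang_le i])] at h1
  exact ang_inj (by linarith)

/-- The vectors of the construction. -/
noncomputable def vec (hd : 3 ≤ d) (a b c : ℝ) : EuclideanSpace ℝ (Fin d) :=
  a • EuclideanSpace.single (⟨0, by omega⟩ : Fin d) (1 : ℝ) +
    b • EuclideanSpace.single (⟨1, by omega⟩ : Fin d) (1 : ℝ) +
    c • EuclideanSpace.single (⟨2, by omega⟩ : Fin d) (1 : ℝ)

lemma inner_vec (hd : 3 ≤ d) (a b c a' b' c' : ℝ) :
    inner ℝ (vec hd a b c) (vec hd a' b' c') = a * a' + b * b' + c * c' := by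
  unfold vec
  simp only [inner_add_left, inner_add_right, real_inner_smul_left, real_inner_smul_right,
    EuclideanSpace.inner_single_left, PiLp.single_apply]
  simp
  ring

/-- The points of the construction. -/
noncomputable def pt (hd : 3 ≤ d) : Option (Fin m) → EuclideanSpace ℝ (Fin d)
  | none => vec hd 0 0 1
  | some j => vec hd (Real.cos (ang j)) (Real.sin (ang j)) (-1)

theorem config (hd : 3 ≤ d) (hm : 2 ≤ m) : Config (pt (m := m) hd) := by
  refine ⟨?_, ?_, ?_⟩
  · rintro (_ | j)
    · refine ⟨vec hd 0 0 1, ?_, ?_⟩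
      · show inner ℝ _ (vec hd 0 0 1) = _
        rw [inner_vec]; norm_num
      · rintro (_ | l) hl
        · exact absurd rfl hl
        · show inner ℝ _ (vec hd _ _ _) < _
          rw [inner_vec]; norm_num
    · refine ⟨vec hd (Real.cos (ang j)) (Real.sin (ang j)) 0, ?_, ?_⟩
      · show inner ℝ _ (vec hd _ _ _) = _
        rw [inner_vec]
        have := Real.cos_sq_add_sin_sq (ang j)
        nlinarith
      · rintro (_ | l) hl
        · show inner ℝ _ (vec hd _ _ _) < _
          rw [inner_vec]; norm_num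
        · show inner ℝ _ (vec hd _ _ _) < _
          rw [inner_vec]
          have hne : (j : ℕ) ≠ l := fun h => hl (by rw [Fin.ext h])
          have := cos_lt hne
          linarith
  · rintro (_ | i) (_ | j) hij
    · exact absurd rfl hij
    · refine ⟨vec hd (2 * Real.cos (ang j)) (2 * Real.sin (ang j)) 1, ?_, ?_, ?_⟩
      · show inner ℝ _ (vec hd _ _ _) = _
        rw [inner_vec]; norm_num
      · show inner ℝ _ (vec hd _ _ _) = _
        rw [inner_vec]
        have := Real.cos_sq_add_sin_sq (ang j)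
        nlinarith
      · rintro (_ | l)
        · show inner ℝ _ (vec hd _ _ _) ≤ _
          rw [inner_vec]; norm_num
        · show inner ℝ _ (vec hd _ _ _) ≤ _
          rw [inner_vec]
          have h1 := Real.cos_le_one (ang j - ang l)
          rw [Real.cos_sub] at h1
          nlinarith
    · refine ⟨vec hd (2 * Real.cos (ang i)) (2 * Real.sin (ang i)) 1, ?_, ?_, ?_⟩
      · show inner ℝ _ (vec hd _ _ _) = _
        rw [inner_vec]
        have := Real.cos_sq_add_sin_sq (ang i)
        nlinarith
      · show inner ℝ _ (vec hd _ _ _) = _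
        rw [inner_vec]; norm_num
      · rintro (_ | l)
        · show inner ℝ _ (vec hd _ _ _) ≤ _
          rw [inner_vec]; norm_num
        · show inner ℝ _ (vec hd _ _ _) ≤ _
          rw [inner_vec]
          have h1 := Real.cos_le_one (ang i - ang l)
          rw [Real.cos_sub] at h1
          nlinarith
    · refine ⟨vec hd 0 0 (-1), ?_, ?_, ?_⟩
      · show inner ℝ _ (vec hd _ _ _) = _
        rw [inner_vec]; norm_num
      · show inner ℝ _ (vec hd _ _ _) = _
        rw [inner_vec]; norm_num
      · rintro (_ | l)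
        · show inner ℝ _ (vec hd _ _ _) ≤ _
          rw [inner_vec]; norm_num
        · show inner ℝ _ (vec hd _ _ _) ≤ _
          rw [inner_vec]; norm_num
  · have h0 : pt (m := m) hd (some ⟨0, by omega⟩) = vec hd 1 0 (-1) := by
      show vec hd (Real.cos (ang 0)) (Real.sin (ang 0)) (-1) = _
      unfold ang; simp
    have h1 : pt (m := m) hd (some ⟨1, by omega⟩) = vec hd (-1) 0 (-1) := by
      show vec hd (Real.cos (ang 1)) (Real.sin (ang 1)) (-1) = _
      unfold ang; simp
    have hC := convex_convexHull ℝ (range (pt (m := m) hd))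
    have m0 : vec hd 1 0 (-1) ∈ convexHull ℝ (range (pt (m := m) hd)) :=
      subset_convexHull ℝ _ ⟨_, h0⟩
    have m1 : vec hd (-1) 0 (-1) ∈ convexHull ℝ (range (pt (m := m) hd)) :=
      subset_convexHull ℝ _ ⟨_, h1⟩
    have m2 : vec hd 0 0 1 ∈ convexHull ℝ (range (pt (m := m) hd)) :=
      subset_convexHull ℝ _ ⟨none, rfl⟩
    have m3 := hC m0 m1 (show (0:ℝ) ≤ 1/2 by norm_num) (show (0:ℝ) ≤ 1/2 by norm_num) (by norm_num)
    have m4 := hC m3 m2 (show (0:ℝ) ≤ 1/2 by norm_num) (show (0:ℝ) ≤ 1/2 by norm_num) (by norm_num)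
    have : (1/2 : ℝ) • ((1/2 : ℝ) • vec hd 1 0 (-1) + (1/2 : ℝ) • vec hd (-1) 0 (-1)) +
        (1/2 : ℝ) • vec hd 0 0 1 = 0 := by
      unfold vec
      module
    rwa [this] at m4

end Pool.Agent.Y821.CB
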